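import Pool.Agent.Helper22_PW.Pt

set_option autoImplicit false

/-!
# Squad PX (`MP_b2b50d_lc`): the counting argument for polynomials with bounded interaction
-/

namespace Pool.Agent.PW.H22

open MvPolynomial
open Pool.Agent.RS (FF io)

section cut

variable {E : Type} [Field E]

theorem cut_monomial_pos {p : ℕ → Prop} {s : ℕ →₀ ℕ} (a : E) (h : ∀ i ∈ s.support, p i) :
    cut p (monomial s a) = monomial s a := by
  classical
  rw [cut, aeval_monomial, monomial_eq]
  congr 1
  refine Finset.prod_congr rfl fun i hi => ?_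
  change (if p i then X i else 0) ^ s i = X i ^ s i
  rw [if_pos (h i hi)]

theorem cut_monomial_neg {p : ℕ → Prop} {s : ℕ →₀ ℕ} (a : E) {i : ℕ} (hi : i ∈ s.support)
    (h : ¬ p i) : cut p (monomial s a) = 0 := by
  classical
  rw [cut, aeval_monomial]
  apply mul_eq_zero_of_right
  refine Finset.prod_eq_zero hi ?_
  change (if p i then X i else 0) ^ s i = (0 : MvPolynomial ℕ E)
  rw [if_neg h]
  exact zero_pow (Finsupp.mem_support_iff.1 hi)

variable [CharZero E]

/-- Two variables of a monomial interact. -/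
theorem interact {f : MvPolynomial ℕ E} {s : ℕ →₀ ℕ} (hs : s ∈ f.support) {i j : ℕ}
    (hij : i ≠ j) (hi : i ∈ s.support) (hj : j ∈ s.support) : pderiv i (pderiv j f) ≠ 0 := by
  classical
  intro h
  have hi' : s i ≠ 0 := Finsupp.mem_support_iff.1 hi
  have hj' : s j ≠ 0 := Finsupp.mem_support_iff.1 hj
  have h1 : i ∉ (pderiv j f).vars := notMem_vars h
  apply h1
  rw [mem_vars_iff_mem_support]
  refine ⟨s - Finsupp.single j 1, ?_, ?_⟩
  · rw [mem_support_iff, coeff_pderiv]
    have h2 : s - Finsupp.single j 1 + Finsupp.single j 1 = s := by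
      apply tsub_add_cancel_of_le
      rw [Finsupp.single_le_iff]
      omega
    rw [h2]
    exact mul_ne_zero (mem_support_iff.1 hs) (Nat.cast_add_one_ne_zero _)
  · rw [Finsupp.mem_support_iff, Finsupp.tsub_apply, Finsupp.single_eq_of_ne hij]
    simpa using hi'

/-- Splitting of a polynomial without interaction between `T` and the complement of `T'`. -/
theorem spl2 {T T' : Finset ℕ} {f : MvPolynomial ℕ E}
    (hf : ∀ i ∈ T, ∀ j ∉ T', i ≠ j → pderiv i (pderiv j f) = 0) (hTT : T ⊆ T') :
    f = cut (fun i => i ∈ T') f + cut (fun i => i ∉ T) f -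
      cut (fun i => i ∈ T') (cut (fun i => i ∉ T) f) := by
  classical
  have key : ∀ s ∈ f.support, monomial s (coeff s f) =
      cut (fun i => i ∈ T') (monomial s (coeff s f)) +
        cut (fun i => i ∉ T) (monomial s (coeff s f)) -
      cut (fun i => i ∈ T') (cut (fun i => i ∉ T) (monomial s (coeff s f))) := by
    intro s hs
    by_cases h : ∃ i ∈ s.support, i ∈ T
    · obtain ⟨i, hi, hiT⟩ := h
      have h1 : ∀ j ∈ s.support, j ∈ T' := by
        intro j hj
        by_contra hjT
        have hij : i ≠ j := fun h => hjT (h ▸ hTT hiT)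
        exact interact hs hij hi hj (hf i hiT j hjT hij)
      rw [cut_monomial_pos (p := fun i => i ∈ T') _ h1,
        cut_monomial_neg (p := fun i => i ∉ T) _ hi (not_not.2 hiT), map_zero, add_zero, sub_zero]
    · push Not at h
      rw [cut_monomial_pos (p := fun i => i ∉ T) _ h]
      ring
  conv_lhs => rw [f.as_sum]
  rw [Finset.sum_congr rfl key, Finset.sum_sub_distrib, Finset.sum_add_distrib, ← map_sum,
    ← map_sum, ← map_sum, ← map_sum, ← f.as_sum]

end cut

section main

variable {E D : Type} [Field E] [CharZero E] [CommRing D] [Algebra E D]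

/-- The counting argument: `y_1, ..., y_r` vanish at the point and have no interaction between `T` and
the complement of `T'`; then `r ≤ ρ`, and if `r = ρ` the coordinates of the point in `T'` are
independent. -/
theorem main2 (ζ : ℕ → D) {m : ℕ} (hfree : Free E m ζ) {ρ : ℕ} (z : Fin ρ → ℕ)
    (hz : Function.Injective z) (J : Finset ℕ) (hzJ : ∀ b, z b ∈ J) {Ω : Type} [Field Ω]
    (j ε : MvPolynomial ℕ D →+* Ω) (hj : Function.Injective j) (hC : ∀ d, ε (C d) = j (C d))
    (hX : ∀ i, (∀ b, i ≠ z b) → ε (X i) = j (X i)) (T T' : Finset ℕ) (hJT : J ⊆ T)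
    (hTT : T ⊆ T') {r : ℕ}
    (y : Fin r → MvPolynomial ℕ E)
    (hy : ∀ a, ∀ i ∈ T, ∀ l ∉ T', i ≠ l → pderiv i (pderiv l (y a)) = 0)
    (h0 : ∀ a, ε (Ph ζ J (y a)) = 0) (z' : Fin r → ℕ) (hz' : Piv y z') (hz'T : ∀ b, z' b ∉ T')
    (N : Finset ℕ) (hN : ∀ a b, (pderiv (z' b) (y a)).vars ⊆ N)
    (hm : ((T' \ J) ∪ (N ∪ Finset.univ.image z')).card ≤ m) :
    r ≤ ρ ∧ (r = ρ → ∀ h : MvPolynomial ℕ E, h ≠ 0 → h.vars ⊆ T' → ε (Ph ζ J h) ≠ 0) := by
  classical
  let _ : Algebra E Ω := (j.comp (algebraMap E (MvPolynomial ℕ D))).toAlgebra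
  let jA : MvPolynomial ℕ D →ₐ[E] Ω := { j with commutes' := fun _ => rfl }
  let εA : MvPolynomial ℕ D →ₐ[E] Ω :=
    { ε with
      commutes' := fun a => by
        change ε (algebraMap E (MvPolynomial ℕ D) a) = j (algebraMap E (MvPolynomial ℕ D) a)
        rw [MvPolynomial.algebraMap_apply, hC] }
  have hjA : Function.Injective jA := hj
  let θ : MvPolynomial ℕ E →ₐ[E] Ω := εA.comp (Ph ζ J)
  have hθ : ∀ g, θ g = ε (Ph ζ J g) := fun _ => rfl
  let Z : Finset ℕ := Finset.univ.image z
  have hZJ : Z ⊆ J := by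
    intro i hi
    obtain ⟨b, -, rfl⟩ := Finset.mem_image.1 hi
    exact hzJ b
  have hZc : Z.card = ρ := by
    rw [Finset.card_image_of_injective _ hz, Finset.card_univ, Fintype.card_fin]
  have hPX : ∀ i, i ∈ J → Ph (E := E) ζ J (X i) = X i := by
    intro i hi
    rw [Ph, aeval_X, if_pos hi]
  have hPC : ∀ i, i ∉ J → Ph (E := E) ζ J (X i) = C (ζ i) := by
    intro i hi
    rw [Ph, aeval_X, if_neg hi]
  have hJT' : J ⊆ T' := hJT.trans hTT
  -- the families
  let f : (T' \ Z : Finset ℕ) ⊕ Fin r → Ω :=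
    Sum.elim (fun i => θ (X (i : ℕ))) (fun a => θ (cut (fun i => i ∉ T) (y a)))
  let f' : (T' \ Z : Finset ℕ) ⊕ Fin r → MvPolynomial ℕ D :=
    Sum.elim (fun i => Ph (E := E) ζ J (X (i : ℕ))) (fun a => Ph ζ J (cut (fun i => i ∉ T) (y a)))
  have hff : f = jA ∘ f' := by
    funext s
    rcases s with ⟨i, hi⟩ | a
    · change ε (Ph (E := E) ζ J (X i)) = j (Ph (E := E) ζ J (X i))
      have hi' := Finset.mem_sdiff.1 hi
      by_cases hiJ : i ∈ J
      · rw [hPX i hiJ]
        apply hX
        rintro b rfl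
        exact hi'.2 (Finset.mem_image.2 ⟨b, Finset.mem_univ _, rfl⟩)
      · rw [hPC i hiJ, hC]
    · change (θ.comp (cut fun i => i ∉ T)) (y a) =
        ((jA.comp (Ph ζ J)).comp (cut fun i => i ∉ T)) (y a)
      congr 1
      apply MvPolynomial.algHom_ext
      intro i
      change θ (cut (fun i => i ∉ T) (X i)) = jA (Ph ζ J (cut (fun i => i ∉ T) (X i)))
      by_cases hi : i ∈ T
      · rw [cut_X_neg (not_not.2 hi), map_zero, map_zero, map_zero]
      · rw [cut_X_pos (p := fun i => i ∉ T) hi, hPC i (fun h => hi (hJT h))]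
        change ε (Ph (E := E) ζ J (X i)) = j (C (ζ i))
        rw [hPC i (fun h => hi (hJT h)), hC]
  -- the independence
  obtain ⟨π, hπ1, hπ2⟩ := hfree ((T' \ J) ∪ (N ∪ Finset.univ.image z')) hm
  have hT : ∀ i ∈ T', ex π (Ph (E := E) ζ J (X i)) = X i := by
    intro i hi
    by_cases hiJ : i ∈ J
    · rw [hPX i hiJ, ex_X]
    · rw [hPC i hiJ, ex_C, hπ1 i (Finset.mem_union_left _ (Finset.mem_sdiff.2 ⟨hi, hiJ⟩))]
  have hcut : ∀ g : MvPolynomial ℕ E, ex π (Ph ζ J (cut (fun i => i ∉ T) g)) =
      cut (fun i => i ∉ T ∧ i ∈ (T' \ J) ∪ (N ∪ Finset.univ.image z')) g := by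
    intro g
    change (((ex π).comp (Ph ζ J)).comp (cut fun i => i ∉ T)) g = _
    congr 1
    apply MvPolynomial.algHom_ext
    intro i
    change ex π (Ph ζ J (cut (fun i => i ∉ T) (X i))) = _
    by_cases hi : i ∈ T
    · rw [cut_X_neg (not_not.2 hi), map_zero, map_zero, cut_X_neg]
      exact fun h => h.1 hi
    · rw [cut_X_pos (p := fun i => i ∉ T) hi, hPC i (fun h => hi (hJT h)), ex_C]
      by_cases hb : i ∈ (T' \ J) ∪ (N ∪ Finset.univ.image z')
      · rw [cut_X_pos ⟨hi, hb⟩]
        exact hπ1 i hb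
      · rw [cut_X_neg (fun h => hb h.2)]
        exact hπ2 i hb
  have hzT : ∀ b, z' b ∉ T := fun b h => hz'T b (hTT h)
  have hf' : AlgebraicIndependent E f' := by
    apply indep_of_minor (ex π) f' (Sum.elim (fun i => (i : ℕ)) z')
    have h1 : (Matrix.of fun l i => pderiv (Sum.elim (fun i : (T' \ Z : Finset ℕ) => (i : ℕ)) z' i)
        (ex π (f' l))) = Matrix.fromBlocks 1 0
          (Matrix.of fun (a : Fin r) (i : (T' \ Z : Finset ℕ)) =>
            pderiv (i : ℕ) (ex π (f' (Sum.inr a))))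
          (Matrix.of fun a b : Fin r => pderiv (z' b) (y a)) := by
      ext1 l i
      rcases l with l | a <;> rcases i with i | b
      · change pderiv (i : ℕ) (ex π (Ph (E := E) ζ J (X (l : ℕ)))) = (1 : Matrix _ _ _) l i
        rw [hT _ (Finset.mem_sdiff.1 l.2).1]
        by_cases hli : l = i
        · rw [hli, pderiv_X_self, Matrix.one_apply_eq]
        · rw [Matrix.one_apply_ne hli, pderiv_X_of_ne (fun h => hli (Subtype.ext h))]
      · change pderiv (z' b) (ex π (Ph (E := E) ζ J (X (l : ℕ)))) = 0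
        rw [hT _ (Finset.mem_sdiff.1 l.2).1, pderiv_X_of_ne]
        intro h
        exact hz'T b (h ▸ (Finset.mem_sdiff.1 l.2).1)
      · rfl
      · change pderiv (z' b) (ex π (Ph ζ J (cut (fun i => i ∉ T) (y a)))) = pderiv (z' b) (y a)
        rw [hcut, pderiv_cut_pos
          (p := fun i => i ∉ T ∧ i ∈ (T' \ J) ∪ (N ∪ Finset.univ.image z'))
          ⟨hzT b, Finset.mem_union_right _ (Finset.mem_union_right _
            (Finset.mem_image.2 ⟨b, Finset.mem_univ _, rfl⟩))⟩]
        apply cut_eq_self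
        intro i hi
        by_contra hne
        apply hi
        have hiN : i ∈ N := by
          apply hN a b
          by_contra hiv
          apply hne
          exact (pderiv_eq_zero_of_notMem_vars hiv)
        refine ⟨?_, Finset.mem_union_right _ (Finset.mem_union_left _ hiN)⟩
        intro hiT
        exact hne (hy a i hiT (z' b) (hz'T b) (fun h => hzT b (h ▸ hiT)))
    rw [h1, Matrix.det_fromBlocks_zero₁₂, Matrix.det_one, one_mul]
    intro h2
    apply hz'.2
    have h3 : VV y z' = Matrix.transpose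
        ((io E).mapMatrix (Matrix.of fun a b : Fin r => pderiv (z' b) (y a))) := by
      ext b a
      rfl
    rw [h3, Matrix.det_transpose, ← RingHom.map_det, h2, map_zero]
  have hf : AlgebraicIndependent E f := by
    rw [hff]
    exact hf'.map' hjA
  -- membership
  let t : T' → Ω := fun i => θ (X (i : ℕ))
  have hmem1 : ∀ g : MvPolynomial ℕ E, θ (cut (fun i => i ∈ T') g) ∈
      Algebra.adjoin E (Set.range t) := by
    intro g
    have h1 : θ (cut (fun i => i ∈ T') g) ∈ (aeval (R := E)
        (fun i => θ (cut (fun i => i ∈ T') (X i)))).range := by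
      refine ⟨g, ?_⟩
      change aeval (fun i => θ (cut (fun i => i ∈ T') (X i))) g = (θ.comp (cut fun i => i ∈ T')) g
      congr 1
      apply MvPolynomial.algHom_ext
      intro i
      rw [aeval_X]
      rfl
    rw [← Algebra.adjoin_range_eq_range_aeval] at h1
    refine Algebra.adjoin_le ?_ h1
    rintro _ ⟨i, rfl⟩
    change θ (cut (fun i => i ∈ T') (X i)) ∈ Algebra.adjoin E (Set.range t)
    by_cases hi : i ∈ T'
    · rw [cut_X_pos (p := fun i => i ∈ T') hi]
      exact Algebra.subset_adjoin ⟨⟨i, hi⟩, rfl⟩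
    · rw [cut_X_neg (p := fun i => i ∈ T') hi, map_zero]
      exact Subalgebra.zero_mem _
  have hmem : ∀ s, f s ∈ Algebra.adjoin E (Set.range t) := by
    intro s
    rcases s with ⟨i, hi⟩ | a
    · exact Algebra.subset_adjoin ⟨⟨i, (Finset.mem_sdiff.1 hi).1⟩, rfl⟩
    · change θ (cut (fun i => i ∉ T) (y a)) ∈ _
      have hc := spl2 (hy a) hTT
      have h1 : θ (y a) = 0 := h0 a
      rw [hc, map_sub, map_add] at h1
      have h2 : θ (cut (fun i => i ∉ T) (y a)) =
          θ (cut (fun i => i ∈ T') (cut (fun i => i ∉ T) (y a))) -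
            θ (cut (fun i => i ∈ T') (y a)) := by
        linear_combination h1
      rw [h2]
      exact Subalgebra.sub_mem _ (hmem1 _) (hmem1 _)
  have hZT : Z ⊆ T' := hZJ.trans hJT'
  have hcard : Fintype.card ((T' \ Z : Finset ℕ) ⊕ Fin r) = T'.card - ρ + r := by
    rw [Fintype.card_sum, Fintype.card_coe, Fintype.card_fin, Finset.card_sdiff_of_subset hZT, hZc]
  have hρT : ρ ≤ T'.card := hZc ▸ Finset.card_le_card hZT
  have hle := card_le_of_mem_adjoin f hf t hmem
  rw [hcard, Fintype.card_coe] at hle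
  refine ⟨by omega, ?_⟩
  intro hr h hh0 hhT
  have ht : AlgebraicIndependent E t := by
    apply H26.independent_of_mem_adjoin (f := f) ?_ hf t hmem
    rw [hcard, Fintype.card_coe]
    omega
  obtain ⟨q, hq⟩ := MvPolynomial.exists_rename_eq_of_vars_subset_range h
    (fun i : T' => (i : ℕ)) Subtype.val_injective (by
      intro i hi
      exact ⟨⟨i, hhT hi⟩, rfl⟩)
  have h1 : ε (Ph ζ J h) = aeval t q := by
    rw [← hq]
    change (θ.comp (rename fun i : T' => (i : ℕ))) q = _
    congr 1
    apply MvPolynomial.algHom_ext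
    intro i
    rw [aeval_X, AlgHom.comp_apply, rename_X]
  rw [h1]
  intro h2
  apply hh0
  have h3 : q = 0 := ht (by rw [h2, map_zero])
  rw [← hq, h3, map_zero]

end main

end Pool.Agent.PW.H22
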