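import Pool.Agent.PW.StmtsB
import Pool.Agent.Helper26_PW.Alg

set_option autoImplicit false

/-!
# Squad PW (`MP_b2b50d_lc`), block 3: the properties (P2) and (P3) of the point
-/

namespace Pool.Agent.PW.H22

open MvPolynomial
open Pool.Agent.RS (FF io)

section cut

variable {E : Type} [Field E]

open Classical in
/-- Set the variables which do not satisfy `p` to `0`. -/
noncomputable def cut (p : ℕ → Prop) : MvPolynomial ℕ E →ₐ[E] MvPolynomial ℕ E :=
  aeval fun i => if p i then X i else 0

theorem cut_X_pos {p : ℕ → Prop} {i : ℕ} (h : p i) : cut (E := E) p (X i) = X i := by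
  classical
  rw [cut, aeval_X, if_pos h]

theorem cut_X_neg {p : ℕ → Prop} {i : ℕ} (h : ¬ p i) : cut (E := E) p (X i) = 0 := by
  classical
  rw [cut, aeval_X, if_neg h]

theorem pderiv_cut_pos {p : ℕ → Prop} {i : ℕ} (h : p i) (f : MvPolynomial ℕ E) :
    pderiv i (cut p f) = cut p (pderiv i f) := by
  classical
  induction f using MvPolynomial.induction_on with
  | C a => 
    have h1 : cut (E := E) p (C a) = C a := by rw [cut, aeval_C]; rfl
    rw [h1, pderiv_C, map_zero]
  | add q r hq hr => rw [map_add, map_add, map_add, map_add, hq, hr]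
  | mul_X q n hq =>
    have h2 : pderiv i (cut (E := E) p (X n)) = cut p (pderiv i (X n)) := by
      by_cases hn : n = i
      · subst hn
        rw [cut_X_pos h, pderiv_X_self, map_one]
      · rw [pderiv_X_of_ne hn, map_zero]
        by_cases hp : p n
        · rw [cut_X_pos hp, pderiv_X_of_ne hn]
        · rw [cut_X_neg hp, map_zero]
    rw [map_mul, Derivation.leibniz, Derivation.leibniz, map_add, smul_eq_mul, smul_eq_mul,
      smul_eq_mul, smul_eq_mul, map_mul, map_mul, hq, h2]

theorem pderiv_cut_neg {p : ℕ → Prop} {i : ℕ} (h : ¬ p i) (f : MvPolynomial ℕ E) :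
    pderiv i (cut p f) = 0 := by
  classical
  induction f using MvPolynomial.induction_on with
  | C a => 
    have h1 : cut (E := E) p (C a) = C a := by rw [cut, aeval_C]; rfl
    rw [h1, pderiv_C]
  | add q r hq hr => rw [map_add, map_add, hq, hr, add_zero]
  | mul_X q n hq =>
    have h2 : pderiv i (cut (E := E) p (X n)) = 0 := by
      by_cases hn : n = i
      · subst hn
        rw [cut_X_neg h, map_zero]
      · by_cases hp : p n
        · rw [cut_X_pos hp, pderiv_X_of_ne hn]
        · rw [cut_X_neg hp, map_zero]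
    rw [map_mul, Derivation.leibniz, hq, h2, smul_zero, smul_zero, add_zero]

variable [CharZero E]

theorem notMem_vars {i : ℕ} {f : MvPolynomial ℕ E} (h : pderiv i f = 0) : i ∉ f.vars := by
  classical
  intro hi
  rw [mem_vars_iff_mem_support] at hi
  obtain ⟨d, hd, hdi⟩ := hi
  have hdi' : d i ≠ 0 := Finsupp.mem_support_iff.1 hdi
  have h1 : coeff (d - Finsupp.single i 1) (pderiv i f) = 0 := by rw [h, coeff_zero]
  have h2 : d - Finsupp.single i 1 + Finsupp.single i 1 = d := by
    apply tsub_add_cancel_of_le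
    rw [Finsupp.single_le_iff]
    omega
  rw [coeff_pderiv, h2] at h1
  rcases mul_eq_zero.1 h1 with h3 | h3
  · exact (mem_support_iff.1 hd) h3
  · exact Nat.cast_add_one_ne_zero _ h3

theorem cut_eq_self {p : ℕ → Prop} {f : MvPolynomial ℕ E} (h : ∀ i, ¬ p i → pderiv i f = 0) :
    cut p f = f := by
  classical
  have h1 := MvPolynomial.hom_congr_vars (f₁ := (cut (E := E) p : MvPolynomial ℕ E →+* _))
    (f₂ := RingHom.id _) (p₁ := f) (p₂ := f) (by
      ext a
      change coeff _ (cut (E := E) p (C a)) = coeff _ (C a)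
      rw [cut, aeval_C]
      rfl) (by
      intro i hi _
      change cut (E := E) p (X i) = X i
      by_cases hp : p i
      · exact cut_X_pos hp
      · exact absurd hi (notMem_vars (h i hp))) rfl
  exact h1

/-- A form is the sum of its part in the variables of `S` and its part in the other variables, up to a
constant, if `S` contains the junta part. -/
theorem spl {G S : Finset ℕ} (hG : G ⊆ S) {f : MvPolynomial ℕ E} (hf : IsUG G f) :
    ∃ c : E, f = cut (fun i => i ∈ S) f + cut (fun i => i ∉ S) f + C c := by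
  classical
  have h : ∀ i, pderiv i (f - cut (fun i => i ∈ S) f - cut (fun i => i ∉ S) f) = 0 := by
    intro i
    rw [map_sub, map_sub]
    by_cases hi : i ∈ S
    · rw [pderiv_cut_pos (p := fun i => i ∈ S) hi, pderiv_cut_neg (p := fun i => i ∉ S) (by
        exact not_not.2 hi), cut_eq_self (p := fun i => i ∈ S), sub_self, sub_zero]
      intro l hl
      exact hf l i (fun h => hl (h ▸ hi)) (Or.inl fun h => hl (hG h))
    · rw [pderiv_cut_neg (p := fun i => i ∈ S) hi, pderiv_cut_pos (p := fun i => i ∉ S) hi,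
        cut_eq_self (p := fun i => i ∉ S), sub_zero, sub_self]
      intro l hl
      have hl' : l ∈ S := not_not.1 hl
      exact hf l i (fun h => hi (h ▸ hl')) (Or.inr fun h => hi (hG h))
  have h1 := Pool.Agent.RS.H82.eq_C_of_pderiv _ h
  refine ⟨coeff 0 (f - cut (fun i => i ∈ S) f - cut (fun i => i ∉ S) f), ?_⟩
  have h2 : f = cut (fun i => i ∈ S) f + cut (fun i => i ∉ S) f +
    (f - cut (fun i => i ∈ S) f - cut (fun i => i ∉ S) f) := by ring
  rw [h1] at h2
  exact h2

end cut

section count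

variable {E K ι κ : Type} [Field E] [Field K] [Algebra E K] [Fintype ι] [Fintype κ]

/-- Counting. -/
theorem card_le_of_mem_adjoin (f : ι → K) (hf : AlgebraicIndependent E f) (t : κ → K)
    (ht : ∀ i, f i ∈ Algebra.adjoin E (Set.range t)) : Fintype.card ι ≤ Fintype.card κ := by
  classical
  let A' := Algebra.adjoin E (Set.range t)
  let f' : ι → A' := fun i => ⟨f i, ht i⟩
  let t' : κ → A' := fun k => ⟨t k, Algebra.subset_adjoin ⟨k, rfl⟩⟩
  have hf' : AlgebraicIndependent E f' := hf.of_comp A'.val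
  have htop : Algebra.adjoin E (Set.range t') = ⊤ := by
    have h1 : Set.range t' = ((↑) : A' → K) ⁻¹' Set.range t := by
      ext x
      constructor
      · rintro ⟨k, rfl⟩
        exact ⟨k, rfl⟩
      · rintro ⟨k, hk⟩
        exact ⟨k, Subtype.ext hk⟩
    rw [h1]
    exact Algebra.adjoin_adjoin_coe_preimage
  have : Algebra.IsAlgebraic (Algebra.adjoin E (Set.range t')) A' := by
    rw [htop]
    refine ⟨fun x => ?_⟩
    exact isAlgebraic_algebraMap (⟨x, Algebra.mem_top⟩ : (⊤ : Subalgebra E A'))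
  have h1 := Algebra.IsAlgebraic.trdeg_le_cardinalMk E (Set.range t')
  have h2 := hf'.cardinalMk_le_trdeg.trans (h1.trans Cardinal.mk_range_le)
  rw [Cardinal.mk_fintype, Cardinal.mk_fintype] at h2
  exact_mod_cast h2

/-- Independence through a nonzero minor, any index type. -/
theorem indep_of_minor {B I : Type} [CharZero E] [CommRing B] [Algebra E B] [DecidableEq ι]
    (π : B →ₐ[E] MvPolynomial I E) (f : ι → B) (j : ι → I)
    (h : (Matrix.of fun l i => pderiv (j i) (π (f l))).det ≠ 0) : AlgebraicIndependent E f := by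
  classical
  let e := Fintype.equivFin ι
  have h1 : AlgebraicIndependent E (f ∘ e.symm) := by
    apply H26.independent_of_minor π (f ∘ e.symm) (j ∘ e.symm)
    have h2 := Matrix.det_submatrix_equiv_self e.symm
      (Matrix.of fun l i => pderiv (j i) (π (f l)))
    intro h3
    apply h
    rw [← h2]
    exact h3
  have h4 : f = (f ∘ e.symm) ∘ e := by
    funext i
    change f i = f (e.symm (e i))
    rw [Equiv.symm_apply_apply]
  rw [h4]
  exact h1.comp _ e.injective

end count

section main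

variable {E D : Type} [Field E] [CharZero E] [CommRing D] [Algebra E D]

/-- Extension of a specialisation of the constants to polynomials over `D`. -/
noncomputable def ex (π : D →ₐ[E] MvPolynomial ℕ E) : MvPolynomial ℕ D →ₐ[E] MvPolynomial ℕ E :=
  { eval₂Hom (π : D →+* MvPolynomial ℕ E) X with
    commutes' := fun a => by
      change eval₂ (π : D →+* MvPolynomial ℕ E) X (algebraMap E (MvPolynomial ℕ D) a) = _
      rw [MvPolynomial.algebraMap_apply, eval₂_C]
      exact π.commutes a }

omit [CharZero E] in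
theorem ex_C (π : D →ₐ[E] MvPolynomial ℕ E) (d : D) : ex π (C d) = π d :=
  eval₂_C _ _ _

omit [CharZero E] in
theorem ex_X (π : D →ₐ[E] MvPolynomial ℕ E) (i : ℕ) : ex π (X i) = X i :=
  eval₂_X _ _ _

/-- The counting argument: `y_1, ..., y_r` vanish at the point; the coordinates of the point in `T` are
independent if `r = ρ`, and `r > ρ` is impossible. -/
theorem main (ζ : ℕ → D) {m : ℕ} (hfree : Free E m ζ) {ρ : ℕ} (z : Fin ρ → ℕ)
    (hz : Function.Injective z) (J : Finset ℕ) (hzJ : ∀ b, z b ∈ J) {Ω : Type} [Field Ω]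
    (j ε : MvPolynomial ℕ D →+* Ω) (hj : Function.Injective j) (hC : ∀ d, ε (C d) = j (C d))
    (hX : ∀ i, (∀ b, i ≠ z b) → ε (X i) = j (X i)) (T : Finset ℕ) (hJT : J ⊆ T) {r : ℕ}
    (y : Fin r → MvPolynomial ℕ E) (G : Finset ℕ) (hG : G ⊆ T) (hy : ∀ a, IsUG G (y a))
    (h0 : ∀ a, ε (Ph ζ J (y a)) = 0) (z' : Fin r → ℕ) (hz' : Piv y z') (hz'T : ∀ b, z' b ∉ T)
    (hm : (T \ J).card + r ≤ m) :
    r ≤ ρ ∧ (r = ρ → ∀ h : MvPolynomial ℕ E, h ≠ 0 → h.vars ⊆ T → ε (Ph ζ J h) ≠ 0) := by
  classical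
  let _ : Algebra E Ω := (j.comp (algebraMap E (MvPolynomial ℕ D))).toAlgebra
  let jA : MvPolynomial ℕ D →ₐ[E] Ω := { j with commutes' := fun _ => rfl }
  let εA : MvPolynomial ℕ D →ₐ[E] Ω :=
    { ε with
      commutes' := fun a => by
        change ε (algebraMap E (MvPolynomial ℕ D) a) = j (algebraMap E (MvPolynomial ℕ D) a)
        rw [MvPolynomial.algebraMap_apply, hC] }
  have hjA : Function.Injective jA := hj
  let θ : MvPolynomial ℕ E →ₐ[E] Ω := εA.comp (Ph ζ J)
  have hθ : ∀ g, θ g = ε (Ph ζ J g) := fun _ => rfl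
  let Z : Finset ℕ := Finset.univ.image z
  have hZJ : Z ⊆ J := by
    intro i hi
    obtain ⟨b, -, rfl⟩ := Finset.mem_image.1 hi
    exact hzJ b
  have hZc : Z.card = ρ := by
    rw [Finset.card_image_of_injective _ hz, Finset.card_univ, Fintype.card_fin]
  have hPX : ∀ i, i ∈ J → Ph (E := E) ζ J (X i) = X i := by
    intro i hi
    rw [Ph, aeval_X, if_pos hi]
  have hPC : ∀ i, i ∉ J → Ph (E := E) ζ J (X i) = C (ζ i) := by
    intro i hi
    rw [Ph, aeval_X, if_neg hi]
  -- the families
  let f : (T \ Z : Finset ℕ) ⊕ Fin r → Ω :=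
    Sum.elim (fun i => θ (X (i : ℕ))) (fun a => θ (cut (fun i => i ∉ T) (y a)))
  let f' : (T \ Z : Finset ℕ) ⊕ Fin r → MvPolynomial ℕ D :=
    Sum.elim (fun i => Ph (E := E) ζ J (X (i : ℕ))) (fun a => Ph ζ J (cut (fun i => i ∉ T) (y a)))
  have hff : f = jA ∘ f' := by
    funext s
    rcases s with ⟨i, hi⟩ | a
    · change ε (Ph (E := E) ζ J (X i)) = j (Ph (E := E) ζ J (X i))
      have hi' := Finset.mem_sdiff.1 hi
      by_cases hiJ : i ∈ J
      · rw [hPX i hiJ]
        apply hX
        rintro b rfl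
        exact hi'.2 (Finset.mem_image.2 ⟨b, Finset.mem_univ _, rfl⟩)
      · rw [hPC i hiJ, hC]
    · change (θ.comp (cut fun i => i ∉ T)) (y a) =
        ((jA.comp (Ph ζ J)).comp (cut fun i => i ∉ T)) (y a)
      congr 1
      apply MvPolynomial.algHom_ext
      intro i
      change θ (cut (fun i => i ∉ T) (X i)) = jA (Ph ζ J (cut (fun i => i ∉ T) (X i)))
      by_cases hi : i ∈ T
      · rw [cut_X_neg (not_not.2 hi), map_zero, map_zero, map_zero]
      · rw [cut_X_pos (p := fun i => i ∉ T) hi, hPC i (fun h => hi (hJT h))]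
        change ε (Ph (E := E) ζ J (X i)) = j (C (ζ i))
        rw [hPC i (fun h => hi (hJT h)), hC]
  -- the independence
  obtain ⟨π, hπ1, hπ2⟩ := hfree ((T \ J) ∪ Finset.univ.image z') (by
    refine (Finset.card_union_le _ _).trans (le_trans ?_ hm)
    have := Finset.card_image_le (s := (Finset.univ : Finset (Fin r))) (f := z')
    rw [Finset.card_univ, Fintype.card_fin] at this
    omega)
  have hT : ∀ i ∈ T, ex π (Ph (E := E) ζ J (X i)) = X i := by
    intro i hi
    by_cases hiJ : i ∈ J
    · rw [hPX i hiJ, ex_X]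
    · rw [hPC i hiJ, ex_C, hπ1 i (Finset.mem_union_left _ (Finset.mem_sdiff.2 ⟨hi, hiJ⟩))]
  have hcut : ∀ g : MvPolynomial ℕ E, ex π (Ph ζ J (cut (fun i => i ∉ T) g)) =
      cut (fun i => ∃ b, z' b = i) g := by
    intro g
    change (((ex π).comp (Ph ζ J)).comp (cut fun i => i ∉ T)) g = _
    congr 1
    apply MvPolynomial.algHom_ext
    intro i
    change ex π (Ph ζ J (cut (fun i => i ∉ T) (X i))) = _
    by_cases hi : i ∈ T
    · rw [cut_X_neg (not_not.2 hi), map_zero, map_zero, cut_X_neg]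
      rintro ⟨b, rfl⟩
      exact hz'T b hi
    · rw [cut_X_pos (p := fun i => i ∉ T) hi, hPC i (fun h => hi (hJT h)), ex_C]
      by_cases hb : ∃ b, z' b = i
      · rw [cut_X_pos hb]
        apply hπ1
        obtain ⟨b, rfl⟩ := hb
        exact Finset.mem_union_right _ (Finset.mem_image.2 ⟨b, Finset.mem_univ _, rfl⟩)
      · rw [cut_X_neg hb]
        apply hπ2
        intro h
        rcases Finset.mem_union.1 h with h | h
        · exact hi (Finset.mem_sdiff.1 h).1
        · obtain ⟨b, -, hb'⟩ := Finset.mem_image.1 h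
          exact hb ⟨b, hb'⟩
  have hf' : AlgebraicIndependent E f' := by
    apply indep_of_minor (ex π) f' (Sum.elim (fun i => (i : ℕ)) z')
    have h1 : (Matrix.of fun l i => pderiv (Sum.elim (fun i : (T \ Z : Finset ℕ) => (i : ℕ)) z' i)
        (ex π (f' l))) = Matrix.fromBlocks 1 0
          (Matrix.of fun (a : Fin r) (i : (T \ Z : Finset ℕ)) =>
            pderiv (i : ℕ) (ex π (f' (Sum.inr a))))
          (Matrix.of fun a b : Fin r => pderiv (z' b) (y a)) := by
      ext1 l i
      rcases l with l | a <;> rcases i with i | b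
      · change pderiv (i : ℕ) (ex π (Ph (E := E) ζ J (X (l : ℕ)))) = (1 : Matrix _ _ _) l i
        rw [hT _ (Finset.mem_sdiff.1 l.2).1]
        by_cases hli : l = i
        · rw [hli, pderiv_X_self, Matrix.one_apply_eq]
        · rw [Matrix.one_apply_ne hli, pderiv_X_of_ne (fun h => hli (Subtype.ext h))]
      · change pderiv (z' b) (ex π (Ph (E := E) ζ J (X (l : ℕ)))) = 0
        rw [hT _ (Finset.mem_sdiff.1 l.2).1, pderiv_X_of_ne]
        intro h
        exact hz'T b (h ▸ (Finset.mem_sdiff.1 l.2).1)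
      · rfl
      · change pderiv (z' b) (ex π (Ph ζ J (cut (fun i => i ∉ T) (y a)))) = pderiv (z' b) (y a)
        rw [hcut, pderiv_cut_pos (p := fun i => ∃ b, z' b = i) ⟨b, rfl⟩]
        apply cut_eq_self
        intro i hi
        exact hy a i (z' b) (fun h => hi ⟨b, h.symm⟩) (Or.inr fun h => hz'T b (hG h))
    rw [h1, Matrix.det_fromBlocks_zero₁₂, Matrix.det_one, one_mul]
    intro h2
    apply hz'.2
    have h3 : VV y z' = Matrix.transpose
        ((io E).mapMatrix (Matrix.of fun a b : Fin r => pderiv (z' b) (y a))) := by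
      ext b a
      rfl
    rw [h3, Matrix.det_transpose, ← RingHom.map_det, h2, map_zero]
  have hf : AlgebraicIndependent E f := by
    rw [hff]
    exact hf'.map' hjA
  -- membership
  let t : T → Ω := fun i => θ (X (i : ℕ))
  have hmem1 : ∀ g : MvPolynomial ℕ E, θ (cut (fun i => i ∈ T) g) ∈
      Algebra.adjoin E (Set.range t) := by
    intro g
    have h1 : θ (cut (fun i => i ∈ T) g) ∈ (aeval (R := E)
        (fun i => θ (cut (fun i => i ∈ T) (X i)))).range := by
      refine ⟨g, ?_⟩
      change aeval (fun i => θ (cut (fun i => i ∈ T) (X i))) g = (θ.comp (cut fun i => i ∈ T)) g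
      congr 1
      apply MvPolynomial.algHom_ext
      intro i
      rw [aeval_X]
      rfl
    rw [← Algebra.adjoin_range_eq_range_aeval] at h1
    refine Algebra.adjoin_le ?_ h1
    rintro _ ⟨i, rfl⟩
    change θ (cut (fun i => i ∈ T) (X i)) ∈ Algebra.adjoin E (Set.range t)
    by_cases hi : i ∈ T
    · rw [cut_X_pos (p := fun i => i ∈ T) hi]
      exact Algebra.subset_adjoin ⟨⟨i, hi⟩, rfl⟩
    · rw [cut_X_neg (p := fun i => i ∈ T) hi, map_zero]
      exact Subalgebra.zero_mem _
  have hmem : ∀ s, f s ∈ Algebra.adjoin E (Set.range t) := by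
    intro s
    rcases s with ⟨i, hi⟩ | a
    · exact Algebra.subset_adjoin ⟨⟨i, (Finset.mem_sdiff.1 hi).1⟩, rfl⟩
    · change θ (cut (fun i => i ∉ T) (y a)) ∈ _
      obtain ⟨c, hc⟩ := spl hG (hy a)
      have h1 : θ (y a) = 0 := h0 a
      rw [hc, map_add, map_add] at h1
      have h2 : θ (cut (fun i => i ∉ T) (y a)) =
          -θ (cut (fun i => i ∈ T) (y a)) - algebraMap E Ω c := by
        have h3 : θ (C c) = algebraMap E Ω c := θ.commutes c
        rw [← h3]
        linear_combination h1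
      rw [h2]
      exact Subalgebra.sub_mem _ (Subalgebra.neg_mem _ (hmem1 _)) (Subalgebra.algebraMap_mem _ _)
  have hZT : Z ⊆ T := hZJ.trans hJT
  have hcard : Fintype.card ((T \ Z : Finset ℕ) ⊕ Fin r) = T.card - ρ + r := by
    rw [Fintype.card_sum, Fintype.card_coe, Fintype.card_fin, Finset.card_sdiff_of_subset hZT, hZc]
  have hρT : ρ ≤ T.card := hZc ▸ Finset.card_le_card hZT
  have hle := card_le_of_mem_adjoin f hf t hmem
  rw [hcard, Fintype.card_coe] at hle
  refine ⟨by omega, ?_⟩
  intro hr h hh0 hhT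
  have ht : AlgebraicIndependent E t := by
    apply H26.independent_of_mem_adjoin (f := f) ?_ hf t hmem
    rw [hcard, Fintype.card_coe]
    omega
  obtain ⟨q, hq⟩ := MvPolynomial.exists_rename_eq_of_vars_subset_range h
    (fun i : T => (i : ℕ)) Subtype.val_injective (by
      intro i hi
      exact ⟨⟨i, hhT hi⟩, rfl⟩)
  have h1 : ε (Ph ζ J h) = aeval t q := by
    rw [← hq]
    change (θ.comp (rename fun i : T => (i : ℕ))) q = _
    congr 1
    apply MvPolynomial.algHom_ext
    intro i
    rw [aeval_X, AlgHom.comp_apply, rename_X]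
  rw [h1]
  intro h2
  apply hh0
  have h3 : q = 0 := ht (by rw [h2, map_zero])
  rw [← hq, h3, map_zero]

end main

theorem image_mem {ρ : ℕ} (z : Fin ρ → ℕ) (J1 : Finset ℕ) (b : Fin ρ) :
    z b ∈ J1 ∪ Finset.univ.image z :=
  Finset.mem_union_right _ (Finset.mem_image.2 ⟨b, Finset.mem_univ _, rfl⟩)

theorem card_J {ρ : ℕ} (z : Fin ρ → ℕ) (J1 : Finset ℕ) :
    (J1 ∪ Finset.univ.image z).card ≤ J1.card + ρ := by
  refine (Finset.card_union_le _ _).trans ?_
  have := Finset.card_image_le (s := (Finset.univ : Finset (Fin ρ))) (f := z)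
  rw [Finset.card_univ, Fintype.card_fin] at this
  omega

/-- ROW PTJ -/
theorem ptj (piv : PivStmt) : PtjStmt := by
  classical
  intro E D Om _ _ _ _ _ _ _ ζ m ρ N k y GM J1 z j e hfree hy hGM hN hGJ hz hzJ hc hm
    ⟨hj, hC, hX, h0⟩ h hh hk
  have hT : (J1 ∪ Finset.univ.image z ∪ h.vars).card ≤ J1.card + ρ + k :=
    (Finset.card_union_le _ _).trans (add_le_add (card_J z J1) hk)
  obtain ⟨z', hz', hz'T⟩ := piv E ρ N y GM hy hGM hN (J1 ∪ Finset.univ.image z ∪ h.vars)
    ((hGJ.trans Finset.subset_union_left).trans Finset.subset_union_left) (by omega)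
  have hm' : ((J1 ∪ Finset.univ.image z ∪ h.vars) \ (J1 ∪ Finset.univ.image z)).card + ρ ≤ m := by
    have h1 : (J1 ∪ Finset.univ.image z ∪ h.vars) \ (J1 ∪ Finset.univ.image z) ⊆ h.vars := by
      intro i hi
      obtain ⟨h2, h3⟩ := Finset.mem_sdiff.1 hi
      exact (Finset.mem_union.1 h2).resolve_left h3
    have := Finset.card_le_card h1
    omega
  exact (main ζ hfree z hz.1 (J1 ∪ Finset.univ.image z) (image_mem z J1)
    (j : MvPolynomial ℕ D →+* Om) (e : MvPolynomial ℕ D →+* Om) hj hC
    (fun i hi => hX i (by rintro ⟨b, rfl⟩; exact hi b rfl)) (J1 ∪ Finset.univ.image z ∪ h.vars)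
    Finset.subset_union_left y GM
    ((hGJ.trans Finset.subset_union_left).trans Finset.subset_union_left) hGM h0 z' hz' hz'T
    hm').2 rfl h hh Finset.subset_union_right

theorem IsUG.mono {E : Type} [Field E] {G G' : Finset ℕ} (h : G ⊆ G') {g : MvPolynomial ℕ E}
    (hg : IsUG G g) : IsUG G' g := fun i j hij hor =>
  hg i j hij (hor.imp (fun h1 h2 => h1 (h h2)) (fun h1 h2 => h1 (h h2)))

/-- ROW PTF -/
theorem ptf (piv : PivStmt) : PtfStmt := by
  classical
  intro E D Om _ _ _ _ _ _ _ ζ m ρ N k c0 y GM J1 z j e hfree hy hGM hN hGJ hz hzJ hk hc hm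
    hpt g ⟨G, hGc, hG⟩ hg he
  have hptj := ptj piv E D Om ζ m ρ N k y GM J1 z j e hfree hy hGM hN hGJ hz hzJ hc (by omega) hpt
  obtain ⟨hj, hC, hX, h0⟩ := hpt
  have hθ : ∀ f ∈ Submodule.span E (Set.range (Fin.snoc y g : Fin (ρ + 1) → MvPolynomial ℕ E)),
      e (Ph ζ (J1 ∪ Finset.univ.image z) f) = 0 := by
    intro f hf
    have h1 : Submodule.span E (Set.range (Fin.snoc y g : Fin (ρ + 1) → MvPolynomial ℕ E)) ≤
        LinearMap.ker (e.comp (Ph ζ (J1 ∪ Finset.univ.image z))).toLinearMap := by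
      rw [Submodule.span_le]
      rintro _ ⟨a, rfl⟩
      refine Fin.lastCases ?_ (fun a => ?_) a
      · rw [Fin.snoc_last]
        exact he
      · rw [Fin.snoc_castSucc]
        exact h0 a
    exact h1 hf
  have hyg : LinearIndependent E (Fin.snoc y g : Fin (ρ + 1) → MvPolynomial ℕ E) :=
    linearIndependent_finSnoc.2 ⟨hy, hg⟩
  have hUG : ∀ a, IsUG (GM ∪ G) ((Fin.snoc y g : Fin (ρ + 1) → MvPolynomial ℕ E) a) := by
    intro a
    refine Fin.lastCases ?_ (fun a => ?_) a
    · rw [Fin.snoc_last]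
      exact IsUG.mono Finset.subset_union_right hG
    · rw [Fin.snoc_castSucc]
      exact IsUG.mono Finset.subset_union_left (hGM a)
  by_cases hrob : Robust (J1.card + ρ + c0 + ρ + 1)
    (Submodule.span E (Set.range (Fin.snoc y g : Fin (ρ + 1) → MvPolynomial ℕ E)))
  · have hT : (J1 ∪ Finset.univ.image z ∪ G).card ≤ J1.card + ρ + c0 :=
      (Finset.card_union_le _ _).trans (add_le_add (card_J z J1) hGc)
    have hGT : GM ∪ G ⊆ J1 ∪ Finset.univ.image z ∪ G :=
      Finset.union_subset_union (hGJ.trans Finset.subset_union_left) (Finset.Subset.refl _)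
    obtain ⟨z', hz', hz'T⟩ := piv E (ρ + 1) (J1.card + ρ + c0 + ρ + 1) _ (GM ∪ G) hyg hUG hrob
      (J1 ∪ Finset.univ.image z ∪ G) hGT (by omega)
    have hm' : ((J1 ∪ Finset.univ.image z ∪ G) \ (J1 ∪ Finset.univ.image z)).card + (ρ + 1) ≤ m := by
      have h1 : (J1 ∪ Finset.univ.image z ∪ G) \ (J1 ∪ Finset.univ.image z) ⊆ G := by
        intro i hi
        obtain ⟨h2, h3⟩ := Finset.mem_sdiff.1 hi
        exact (Finset.mem_union.1 h2).resolve_left h3
      have := Finset.card_le_card h1
      omega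
    have h1 := (main ζ hfree z hz.1 (J1 ∪ Finset.univ.image z) (image_mem z J1)
      (j : MvPolynomial ℕ D →+* Om) (e : MvPolynomial ℕ D →+* Om) hj hC
      (fun i hi => hX i (by rintro ⟨b, rfl⟩; exact hi b rfl)) (J1 ∪ Finset.univ.image z ∪ G)
      Finset.subset_union_left _ (GM ∪ G) hGT hUG
      (fun a => hθ _ (Submodule.subset_span ⟨a, rfl⟩)) z' hz' hz'T hm').1
    omega
  · unfold Robust at hrob
    push Not at hrob
    obtain ⟨f, hf, hf0, hfc⟩ := hrob
    exact hptj f hf0 (by omega) (hθ f hf)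

end Pool.Agent.PW.H22
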